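import Mathlib

set_option autoImplicit false

namespace Pool.Agent.Results.MP_dc22f7_an.IteratedLaguerreFails

/-- `φ^{(k)}(x)` for a real entire function `φ` and real `x` (the derivative is real; we take the real part). -/
noncomputable def D (φ : ℂ → ℂ) (k : ℕ) (x : ℝ) : ℝ := (iteratedDeriv k φ (x : ℂ)).re

/-- The iterated Laguerre expressions `T_k^{(n)}(φ(x))` (meaningful for `k ≥ n+1`). -/
noncomputable def T (φ : ℂ → ℂ) : ℕ → ℕ → ℝ → ℝ
  | 0, k, x => (D φ k x) ^ 2 - D φ (k - 1) x * D φ (k + 1) x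
  | n + 1, k, x => (T φ n k x) ^ 2 - T φ n (k - 1) x * T φ n (k + 1) x

/-- `φ` has order at most one: for every `ε > 0`, `|φ(z)| ≤ C exp(|z|^(1+ε))` for some constant `C`. -/
def OrderAtMostOne (φ : ℂ → ℂ) : Prop :=
  ∀ ε : ℝ, 0 < ε → ∃ C : ℝ, ∀ z : ℂ, ‖φ z‖ ≤ C * Real.exp (‖z‖ ^ (1 + ε))

/-- integer model of the derivatives at `0` -/
def g (k : ℕ) : ℤ := (k:ℤ)^3 + 18 * (k:ℤ)^2 + 20 * k + 19

def Tz : ℕ → ℕ → ℤ
  | 0, k => (g k) ^ 2 - g (k - 1) * g (k + 1)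
  | n + 1, k => (Tz n k) ^ 2 - Tz n (k - 1) * Tz n (k + 1)

noncomputable def phi (z : ℂ) : ℂ := Complex.exp z * ((1 + z) ^ 2 * (19 + z))

lemma iter (k : ℕ) : iteratedDeriv k phi = fun z => Complex.exp z *
    (z ^ 3 + (21 + 3 * (k:ℂ)) * z ^ 2 + (3 * (k:ℂ)^2 + 39 * k + 39) * z + ((k:ℂ)^3 + 18 * (k:ℂ)^2 + 20 * k + 19)) := by
  induction k with
  | zero =>
    ext z
    simp only [iteratedDeriv_zero, phi, Nat.cast_zero]
    ring
  | succ k ih =>
    rw [iteratedDeriv_succ, ih]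
    ext z
    have h : HasDerivAt (fun z : ℂ => Complex.exp z *
        (z ^ 3 + (21 + 3 * (k:ℂ)) * z ^ 2 + (3 * (k:ℂ)^2 + 39 * k + 39) * z + ((k:ℂ)^3 + 18 * (k:ℂ)^2 + 20 * k + 19)))
        (Complex.exp z * (z ^ 3 + (21 + 3 * (k:ℂ)) * z ^ 2 + (3 * (k:ℂ)^2 + 39 * k + 39) * z + ((k:ℂ)^3 + 18 * (k:ℂ)^2 + 20 * k + 19))
          + Complex.exp z * (3 * z ^ 2 + (21 + 3 * (k:ℂ)) * (2 * z) + (3 * (k:ℂ)^2 + 39 * k + 39))) z := by
      apply (Complex.hasDerivAt_exp z).mul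
      have h1 : HasDerivAt (fun z : ℂ => z ^ 3) (3 * z ^ 2) z := by simpa using hasDerivAt_pow 3 z
      have h2 : HasDerivAt (fun z : ℂ => z ^ 2) (2 * z) z := by simpa using hasDerivAt_pow 2 z
      have h3 := ((h1.add (h2.const_mul (21 + 3 * (k:ℂ)))).add ((hasDerivAt_id z).const_mul (3 * (k:ℂ)^2 + 39 * k + 39))).add_const
        ((k:ℂ)^3 + 18 * (k:ℂ)^2 + 20 * k + 19)
      simpa using h3
    rw [h.deriv]
    push_cast
    ring

lemma D_zero (k : ℕ) : D phi k 0 = (g k : ℝ) := by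
  unfold D g
  rw [iter]
  simp only [Complex.ofReal_zero, Complex.exp_zero]
  have : (1 * ((0:ℂ) ^ 3 + (21 + 3 * (k:ℂ)) * 0 ^ 2 + (3 * (k:ℂ)^2 + 39 * k + 39) * 0 + ((k:ℂ)^3 + 18 * (k:ℂ)^2 + 20 * k + 19)))
      = (((k:ℝ)^3 + 18 * (k:ℝ)^2 + 20 * k + 19 : ℝ) : ℂ) := by
    push_cast; ring
  rw [this, Complex.ofReal_re]
  push_cast
  ring

lemma T_eq (n : ℕ) : ∀ k, T phi n k 0 = (Tz n k : ℝ) := by
  induction n with
  | zero => intro k; simp only [T, Tz, D_zero]; push_cast; ring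
  | succ n ih => intro k; simp only [T, Tz, ih]; push_cast; ring

lemma Tz_neg : Tz 5 6 < 0 := by decide +kernel

lemma order_one : OrderAtMostOne phi := by
  intro ε hε
  refine ⟨19 * Real.exp (4 * 4 ^ (1/ε)), fun z => ?_⟩
  set r := ‖z‖ with hr
  have hr0 : 0 ≤ r := norm_nonneg z
  have h1 : ‖phi z‖ ≤ 19 * Real.exp (4 * r) := by
    unfold phi
    rw [norm_mul, norm_mul, norm_pow, Complex.norm_exp]
    have a1 : Real.exp z.re ≤ Real.exp r := Real.exp_le_exp.mpr (Complex.re_le_norm z)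
    have a2 : ‖1 + z‖ ≤ Real.exp r := by
      calc ‖1 + z‖ ≤ ‖(1:ℂ)‖ + ‖z‖ := norm_add_le _ _
        _ = r + 1 := by rw [norm_one]; ring
        _ ≤ Real.exp r := Real.add_one_le_exp r
    have a3 : ‖19 + z‖ ≤ 19 * Real.exp r := by
      calc ‖19 + z‖ ≤ ‖(19:ℂ)‖ + ‖z‖ := norm_add_le _ _
        _ = 19 + r := by norm_num [hr]
        _ ≤ 19 * (r + 1) := by linarith
        _ ≤ 19 * Real.exp r := by have := Real.add_one_le_exp r; linarith
    calc Real.exp z.re * (‖1 + z‖ ^ 2 * ‖19 + z‖) ≤ Real.exp r * ((Real.exp r) ^ 2 * (19 * Real.exp r)) := by gcongr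
      _ = 19 * Real.exp (4 * r) := by
          rw [show 4 * r = r + r + r + r by ring, Real.exp_add, Real.exp_add, Real.exp_add]; ring
  have h2 : 4 * r ≤ 4 * 4 ^ (1/ε) + r ^ (1 + ε) := by
    have hp : (0:ℝ) < 4 ^ (1/ε) := Real.rpow_pos_of_pos (by norm_num) _
    rcases le_or_gt r (4 ^ (1/ε)) with h | h
    · have : 0 ≤ r ^ (1+ε) := Real.rpow_nonneg hr0 _
      linarith
    · have hrpos : 0 < r := lt_trans hp h
      have h3 : (4:ℝ) ≤ r ^ ε := by
        calc (4:ℝ) = (4 ^ (1/ε)) ^ ε := by rw [← Real.rpow_mul (by norm_num)]; field_simp; simp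
          _ ≤ r ^ ε := Real.rpow_le_rpow hp.le h.le hε.le
      rw [Real.rpow_add hrpos, Real.rpow_one]
      nlinarith
  calc ‖phi z‖ ≤ 19 * Real.exp (4 * r) := h1
    _ ≤ 19 * Real.exp (4 * 4 ^ (1/ε) + r ^ (1 + ε)) := by gcongr
    _ = _ := by rw [Real.exp_add]; ring

theorem result :
    ∃ φ : ℂ → ℂ, (∀ z, φ z = Complex.exp z * ((1 + z) ^ 2 * (19 + z))) ∧
      Differentiable ℂ φ ∧ (∀ x : ℝ, (φ x).im = 0) ∧ OrderAtMostOne φ ∧
      (∀ z, φ z = 0 → z.im = 0 ∧ z.re < 0) ∧ T φ 5 6 0 < 0 := by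
  refine ⟨phi, fun z => rfl, ?_, ?_, order_one, ?_, ?_⟩
  · unfold phi; fun_prop
  · intro x
    have : phi x = ((Real.exp x * ((1 + x) ^ 2 * (19 + x)) : ℝ) : ℂ) := by
      unfold phi; push_cast; ring
    rw [this, Complex.ofReal_im]
  · intro z hz
    unfold phi at hz
    rcases mul_eq_zero.mp hz with h | h
    · exact absurd h (Complex.exp_ne_zero z)
    · rcases mul_eq_zero.mp h with h | h
      · have h1 : z = -1 := by
          have := pow_eq_zero_iff (two_ne_zero) |>.mp h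
          linear_combination this
        rw [h1]; simp
      · have h1 : z = -19 := by linear_combination h
        rw [h1]; simp
  · rw [T_eq]
    exact_mod_cast Tz_neg

end Pool.Agent.Results.MP_dc22f7_an.IteratedLaguerreFails
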